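import Pool.Agent.Run7.h988.Final

/-!
# The differentials of a ring of depth one whose derivation module has finite G-dimension

Let `R` be a Noetherian local `k`-algebra of depth one and of any dimension: `x` is a
nonzerodivisor of the maximal ideal and `s` is an element outside `x R` with `m s ⊆ x R`.  Let
`d : R → Ω` be a finite module of differentials (for instance the universally finite one): every
`k`-derivation of `R` into `R` factors uniquely through `d`.  If `Der_k(R)` has finite
G-dimension then, with no further hypothesis on `Ω`, the modules `Der_k(R)` and `Ω / torsion` (the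
quotient of `Ω` by the kernel of `Ω → Ω**`) are totally reflexive, and `Ω → Ω**` is surjective.

`Run7.h988.TotRefl R M` says that `M` is totally reflexive and `Run7.h988.GdimLE R n M` that `M`
has a resolution of length at most `n` by totally reflexive modules (`Run7/h988/TR.lean`).
-/

set_option autoImplicit false

open IsLocalRing CategoryTheory

universe u v

namespace Pool.Agent.Results.MP_72c78a_ag.DepthOne

open Run7.h988

/-- **Finite G-dimension of the derivations in depth one.** -/
theorem result {R : Type u} [CommRing R] [IsLocalRing R] [IsNoetherianRing R]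
    {k : Type v} [Field k] [Algebra k R]
    {Ω : Type u} [AddCommGroup Ω] [Module R Ω] [Module k Ω] [IsScalarTower k R Ω]
    [Module.Finite R Ω] (d : Derivation k R Ω)
    (hd : ∀ D : Derivation k R R, ∃! φ : Ω →ₗ[R] R, ∀ f, φ (d f) = D f)
    {x s : R} (hxm : x ∈ maximalIdeal R) (hx : x ∈ nonZeroDivisors R) (hs : ¬ x ∣ s)
    (hms : ∀ y ∈ maximalIdeal R, x ∣ y * s)
    (hG : ∃ n : ℕ, GdimLE R n (Derivation k R R)) :
    TotRefl R (Derivation k R R) ∧
      Function.Surjective (Module.Dual.eval R Ω) ∧
      TotRefl R (Ω ⧸ LinearMap.ker (Module.Dual.eval R Ω)) := by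
  obtain ⟨n, hn⟩ := hG
  exact depth_one d hd ⟨hxm, mem_nonZeroDivisors_iff_left.1 hx, hs, hms⟩ n hn

end Pool.Agent.Results.MP_72c78a_ag.DepthOne
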