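import Pool.Agent.Run7.h988.QH

/-!
# Q1 for quasi-homogeneous rings of dimension one

Let `R` be a reduced Noetherian local ring of dimension one which contains a field `k` of
characteristic zero over which its residue field is finite, and suppose that `R` is
quasi-homogeneous: its maximal ideal is generated by elements `x i` with `E (x i) = w i * x i` for
a `k`-derivation `E` of `R` and positive integers `w i`.  If the module `Der_k(R)` has finite
G-dimension, then `R` is Gorenstein.

`Run7.h988.TotRefl R M` says that `M` is totally reflexive and `Run7.h988.GdimLE R n M` that `M`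
has a resolution of length at most `n` by totally reflexive modules (both in
`Pool/Agent/Run7/h988/TR.lean`).  A Noetherian local ring is Gorenstein if it has finite injective
dimension over itself.
-/

set_option autoImplicit false

open IsLocalRing CategoryTheory

universe u v w

namespace Pool.Agent.Results.MP_72c78a_ag.QuasiHomogeneousCurves

open Run7.h988

/-- **Finite G-dimension of the derivation module of a quasi-homogeneous ring of dimension one
forces the ring to be Gorenstein.** -/
theorem result {R : Type u} [CommRing R] [IsLocalRing R] [IsNoetherianRing R] [IsReduced R]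
    {k : Type v} [Field k] [CharZero k] [Algebra k R] [Module.Finite k (ResidueField R)]
    (hdim : ringKrullDim R = 1)
    (E : Derivation k R R) {ι : Type w} (x : ι → R) (wt : ι → ℕ)
    (hx : Ideal.span (Set.range x) = maximalIdeal R)
    (hwt : ∀ i, 0 < wt i) (hE : ∀ i, E (x i) = (wt i : R) * x i)
    (hG : ∃ n : ℕ, GdimLE R n (Derivation k R R)) :
    ∃ n : ℕ, HasInjectiveDimensionLE (ModuleCat.of R R) n := by
  obtain ⟨n, hn⟩ := hG
  exact ⟨1, QH.injDim hdim (⟨hx, hwt, hE⟩ : QH E x wt) n hn⟩

end Pool.Agent.Results.MP_72c78a_ag.QuasiHomogeneousCurves
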