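import Pool.Agent.Run7.h988.RegC

/-!
# Q1 for rings of dimension one of small multiplicity

Let `R` be a reduced Noetherian local ring of dimension one which contains a field `k` of
characteristic zero over which its residue field is finite; `R` is complete, or its normalisation
is a finite `R`-module, and `Der_k(R)` is not zero (all of this holds for the rings of dimension
one of the problem whose residue field is finite over `k`).  Suppose that the module `Der_k(R)`
has finite G-dimension.  Then either `R` is Gorenstein, or for every nonzerodivisor `x` of the
maximal ideal

  `length (R / x R) ≥ 2 * r + 2 ≥ 6`,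

where `r ≥ 2` is the type of `R`, the length of the socle of `R / x R`.  In particular Q1 has a
positive answer for all rings of dimension one of multiplicity at most five, and whenever the
multiplicity is at most `2 * r + 1`.

`Run7.h988.TotRefl R M` says that `M` is totally reflexive and `Run7.h988.GdimLE R n M` that `M`
has a resolution of length at most `n` by totally reflexive modules (`Run7/h988/TR.lean`);
`Run7.h988.soc x` is the submodule of `R / x R` annihilated by the maximal ideal
(`Run7/h988/Len.lean`).
-/

set_option autoImplicit false

open IsLocalRing CategoryTheory

universe u v

namespace Pool.Agent.Results.MP_72c78a_ag.SmallMultiplicity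

open Run7.h988

/-- **If the derivation module of a ring of dimension one has finite G-dimension then the ring is
Gorenstein or has multiplicity at least `2 * type + 2 ≥ 6`.** -/
theorem result {R : Type u} [CommRing R] [IsLocalRing R] [IsNoetherianRing R] [IsReduced R]
    {k : Type v} [Field k] [CharZero k] [Algebra k R] [Module.Finite k (ResidueField R)]
    (hdim : ringKrullDim R = 1)
    (hR : IsAdicComplete (maximalIdeal R) R ∨
      Module.Finite R (integralClosure R (FractionRing R)))
    (hD : ∃ D : Derivation k R R, D ≠ 0)
    (hG : ∃ n : ℕ, GdimLE R n (Derivation k R R)) :
    (∃ n : ℕ, HasInjectiveDimensionLE (ModuleCat.of R R) n) ∨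
      ∀ x ∈ maximalIdeal R, x ∈ nonZeroDivisors R →
        2 ≤ Module.length R (soc x) ∧
        2 * Module.length R (soc x) + 2 ≤ Module.length R (R ⧸ Ideal.span {x}) := by
  obtain ⟨n, hn⟩ := hG
  by_cases h : HasInjectiveDimensionLE (ModuleCat.of R R) 1
  · exact Or.inl ⟨1, h⟩
  · exact Or.inr fun x hxm hx => (small_mult hdim hR hD n hn x hxm hx).resolve_left h

end Pool.Agent.Results.MP_72c78a_ag.SmallMultiplicity
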